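import Mathlib

/-!
The subring `R = {a ∈ A | δ a ∈ A}` for a derivation `δ` of the fraction field `K` of `A`,
in characteristic two.
-/

namespace Pool.Agent.KS6_47.Smn

universe u

section Abs

variable {A K : Type u} [CommRing A] [IsDomain A] [Field K] [Algebra A K] [IsFractionRing A K]
  [CharP K 2] (δ : Derivation ℤ K K)

/-- elements of `K` which come from `A` -/
def IsA (A : Type u) {K : Type u} [CommRing A] [Field K] [Algebra A K] (z : K) : Prop :=
  ∃ a : A, algebraMap A K a = z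

lemma IsA.add {z w : K} (hz : IsA A z) (hw : IsA A w) : IsA A (z + w) := by
  obtain ⟨a, rfl⟩ := hz
  obtain ⟨b, rfl⟩ := hw
  exact ⟨a + b, map_add _ _ _⟩

lemma IsA.mul {z w : K} (hz : IsA A z) (hw : IsA A w) : IsA A (z * w) := by
  obtain ⟨a, rfl⟩ := hz
  obtain ⟨b, rfl⟩ := hw
  exact ⟨a * b, map_mul _ _ _⟩

lemma IsA.neg {z : K} (hz : IsA A z) : IsA A (-z) := by
  obtain ⟨a, rfl⟩ := hz
  exact ⟨-a, map_neg _ _⟩

lemma IsA.coe (a : A) : IsA A (algebraMap A K a) := ⟨a, rfl⟩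

lemma IsA.zero : IsA A (0 : K) := ⟨0, map_zero _⟩

lemma IsA.one : IsA A (1 : K) := ⟨1, map_one _⟩

lemma IsA.sum {ι : Type*} (s : Finset ι) (f : ι → K) (h : ∀ i ∈ s, IsA A (f i)) :
    IsA A (∑ i ∈ s, f i) := by
  classical
  induction s using Finset.induction_on with
  | empty => rw [Finset.sum_empty]; exact IsA.zero
  | insert a s ha ih =>
    rw [Finset.sum_insert ha]
    exact (h a (Finset.mem_insert_self _ _)).add (ih fun i hi => h i (Finset.mem_insert_of_mem hi))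

/-- the ring `R` -/
def RK : Subring A where
  carrier := {a | IsA A (δ (algebraMap A K a))}
  mul_mem' := by
    intro a b ha hb
    change IsA A _
    rw [map_mul, δ.leibniz, smul_eq_mul, smul_eq_mul]
    exact ((IsA.coe a).mul hb).add ((IsA.coe b).mul ha)
  one_mem' := by
    change IsA A _
    rw [map_one, δ.map_one_eq_zero]
    exact IsA.zero
  add_mem' := by
    intro a b ha hb
    change IsA A _
    rw [map_add, map_add]
    exact IsA.add ha hb
  zero_mem' := by
    change IsA A _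
    rw [map_zero, map_zero]
    exact IsA.zero
  neg_mem' := by
    intro a ha
    change IsA A _
    rw [map_neg, map_neg]
    exact IsA.neg ha

lemma mem_RK {a : A} : a ∈ RK δ ↔ IsA A (δ (algebraMap A K a)) := Iff.rfl

/-- the ring `S` of the constants -/
def SK : Subring A where
  carrier := {a | δ (algebraMap A K a) = 0}
  mul_mem' := by
    intro a b ha hb
    change δ _ = 0
    have ha' : δ (algebraMap A K a) = 0 := ha
    have hb' : δ (algebraMap A K b) = 0 := hb
    rw [map_mul, δ.leibniz, ha', hb', smul_zero, smul_zero, add_zero]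
  one_mem' := by
    change δ _ = 0
    rw [map_one, δ.map_one_eq_zero]
  add_mem' := by
    intro a b ha hb
    change δ _ = 0
    have ha' : δ (algebraMap A K a) = 0 := ha
    have hb' : δ (algebraMap A K b) = 0 := hb
    rw [map_add, map_add, ha', hb', add_zero]
  zero_mem' := by
    change δ _ = 0
    rw [map_zero, map_zero]
  neg_mem' := by
    intro a ha
    change δ _ = 0
    have ha' : δ (algebraMap A K a) = 0 := ha
    rw [map_neg, map_neg, ha', neg_zero]

lemma mem_SK {a : A} : a ∈ SK δ ↔ δ (algebraMap A K a) = 0 := Iff.rfl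

lemma SK_le_RK : SK δ ≤ RK (A := A) δ := by
  intro a ha
  rw [mem_SK] at ha
  rw [mem_RK, ha]
  exact IsA.zero

lemma two_eq_zero' : (2 : K) = 0 := CharTwo.two_eq_zero

lemma delta_sq (z : K) : δ (z ^ 2) = 0 := by
  rw [pow_two, δ.leibniz, smul_eq_mul, ← two_mul, two_eq_zero', zero_mul]

lemma sq_mem_SK (a : A) : a ^ 2 ∈ SK δ := by
  rw [mem_SK, map_pow, delta_sq]

/-- the data of the construction -/
structure Dat (t u c : ℕ → A) : Prop where
  dd : ∀ a : A, δ (δ (algebraMap A K a)) = 0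
  c0 : c 0 = 1
  cs : ∀ i, c (i + 1) = c i * u i
  cne : ∀ i, c i ≠ 0
  dc : ∀ i, δ (algebraMap A K (c i)) = 0
  dt : ∀ i, algebraMap A K (c i) * δ (algebraMap A K (t i)) = 1
  ev : ∀ a : A, ∃ i, IsA A (algebraMap A K (c i) * δ (algebraMap A K a))
  up : ∀ i, IsUnit (u i) ∨ Prime (u i)
  uu : ∀ i j, i ≠ j → Prime (u i) → ¬ u i ∣ u j
  enough : ∀ P : Ideal A, P.IsPrime → P ≠ ⊥ → ∃ i, Prime (u i) ∧ u i ∈ P

variable {δ} {t u c : ℕ → A} (h : Dat δ t u c)

include h

lemma Dat.dvd {i j : ℕ} (hij : i ≤ j) : c i ∣ c j := by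
  induction j with
  | zero =>
    have : i = 0 := by omega
    rw [this]
  | succ j ih =>
    rcases Nat.lt_or_ge i (j + 1) with h1 | h1
    · rw [h.cs]
      exact (ih (by omega)).mul_right _
    · have : i = j + 1 := by omega
      rw [this]

lemma Dat.ev' (a : A) : ∃ i, ∀ j ≥ i, IsA A (algebraMap A K (c j) * δ (algebraMap A K a)) := by
  obtain ⟨i, hi⟩ := h.ev a
  refine ⟨i, fun j hj => ?_⟩
  obtain ⟨e, he⟩ := h.dvd hj
  rw [he, map_mul, mul_comm (algebraMap A K (c i)), mul_assoc]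
  exact (IsA.coe e).mul hi

omit h in
lemma alg_ne {a : A} (ha : a ≠ 0) : algebraMap A K a ≠ 0 := by
  intro h0
  exact ha ((IsFractionRing.injective A K) (by rw [h0, map_zero]))

lemma Dat.dt' (i : ℕ) : δ (algebraMap A K (t i)) = (algebraMap A K (c i))⁻¹ :=
  eq_inv_of_mul_eq_one_right (h.dt i)

/-- the decomposition of an element -/
lemma Dat.decomp {a : A} {j : ℕ} (hj : IsA A (algebraMap A K (c j) * δ (algebraMap A K a))) :
    ∃ α β : A, α ∈ SK δ ∧ β ∈ SK δ ∧ a = α + β * t j := by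
  obtain ⟨β, hβ⟩ := hj
  have hβS : β ∈ SK δ := by
    rw [mem_SK, hβ, δ.leibniz, h.dd, h.dc, smul_zero, smul_zero, add_zero]
  refine ⟨a - β * t j, β, ?_, hβS, by ring⟩
  rw [mem_SK] at hβS ⊢
  rw [map_sub, map_sub, map_mul, δ.leibniz, hβS, smul_zero, add_zero, smul_eq_mul, hβ]
  have := h.dt j
  linear_combination (-δ (algebraMap A K a)) * this

lemma Dat.comap_map (I : Ideal (SK (A := A) δ)) (s : SK (A := A) δ)
    (hs : (s : A) ∈ I.map (SK (A := A) δ).subtype) : s ∈ I := by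
  have key : ∀ x ∈ I.map (SK (A := A) δ).subtype, ∃ i : ℕ, ∀ j ≥ i, ∃ α β : SK (A := A) δ,
      α ∈ I ∧ β ∈ I ∧ x = α + β * t j := by
    intro x hx
    refine Submodule.span_induction (p := fun x _ => ∃ i : ℕ, ∀ j ≥ i, ∃ α β : SK (A := A) δ,
      α ∈ I ∧ β ∈ I ∧ x = α + β * t j) ?_ ?_ ?_ ?_ hx
    · rintro _ ⟨y, hy, rfl⟩
      refine ⟨0, fun j _ => ⟨y, 0, hy, I.zero_mem, ?_⟩⟩
      change (y : A) = y + ((0 : SK (A := A) δ) : A) * t j
      rw [ZeroMemClass.coe_zero, zero_mul, add_zero]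
    · refine ⟨0, fun j _ => ⟨0, 0, I.zero_mem, I.zero_mem, ?_⟩⟩
      rw [ZeroMemClass.coe_zero, zero_mul, add_zero]
    · rintro x y _ _ ⟨i, hi⟩ ⟨i', hi'⟩
      refine ⟨max i i', fun j hj => ?_⟩
      obtain ⟨α, β, hα, hβ, e⟩ := hi j (le_trans (le_max_left _ _) hj)
      obtain ⟨α', β', hα', hβ', e'⟩ := hi' j (le_trans (le_max_right _ _) hj)
      refine ⟨α + α', β + β', I.add_mem hα hα', I.add_mem hβ hβ', ?_⟩
      rw [e, e']
      push_cast
      ring
    · rintro a x _ ⟨i, hi⟩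
      obtain ⟨i', hi'⟩ := h.ev' a
      refine ⟨max i i', fun j hj => ?_⟩
      obtain ⟨α, β, hα, hβ, e⟩ := hi j (le_trans (le_max_left _ _) hj)
      obtain ⟨α', β', hα', hβ', e'⟩ := h.decomp (hi' j (le_trans (le_max_right _ _) hj))
      refine ⟨⟨α', hα'⟩ * α + ⟨β', hβ'⟩ * β * ⟨t j ^ 2, sq_mem_SK δ _⟩,
        ⟨α', hα'⟩ * β + ⟨β', hβ'⟩ * α, ?_, ?_, ?_⟩
      · exact I.add_mem (I.mul_mem_left _ hα) (I.mul_mem_right _ (I.mul_mem_left _ hβ))
      · exact I.add_mem (I.mul_mem_left _ hβ) (I.mul_mem_left _ hα)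
      · rw [smul_eq_mul, e, e']
        push_cast
        ring
  obtain ⟨i, hi⟩ := key _ hs
  obtain ⟨α, β, hα, hβ, e⟩ := hi i le_rfl
  have h1 := congrArg (fun z => δ (algebraMap A K z)) e
  simp only [map_add, map_mul, δ.leibniz] at h1
  have hs0 : δ (algebraMap A K s) = 0 := s.2
  have hα0 : δ (algebraMap A K α) = 0 := α.2
  have hβ0 : δ (algebraMap A K β) = 0 := β.2
  rw [hs0, hα0, hβ0, smul_zero, add_zero, zero_add, smul_eq_mul, h.dt' i] at h1
  have h2 : (β : A) = 0 := by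
    by_contra h3
    have h4 := mul_ne_zero (alg_ne (K := K) h3) (inv_ne_zero (alg_ne (K := K) (h.cne i)))
    exact h4 h1.symm
  have h3 : s = α := by
    apply Subtype.ext
    rw [e, h2, zero_mul, add_zero]
  rw [h3]
  exact hα

lemma Dat.noeth_S [IsNoetherianRing A] : IsNoetherianRing (SK (A := A) δ) := by
  have hinj : ∀ I J : Ideal (SK (A := A) δ),
      I.map (SK (A := A) δ).subtype ≤ J.map (SK (A := A) δ).subtype → I ≤ J := by
    intro I J hIJ s hs
    exact h.comap_map J s (hIJ (Ideal.mem_map_of_mem _ hs))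
  have hsm : StrictMono (fun I : Ideal (SK (A := A) δ) => I.map (SK (A := A) δ).subtype) := by
    intro I J hIJ
    refine lt_of_le_of_ne (Ideal.map_mono hIJ.le) ?_
    intro heq
    exact hIJ.not_ge (hinj J I heq.ge)
  have : WellFoundedGT (Ideal (SK (A := A) δ)) := hsm.wellFoundedGT
  exact isNoetherian_iff'.mpr this

lemma Dat.RK_decomp {r : A} (hr : r ∈ RK (A := A) δ) :
    ∃ α β : A, α ∈ SK δ ∧ β ∈ SK δ ∧ r = α + β * t 0 := by
  apply h.decomp
  rw [h.c0, map_one, one_mul]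
  exact hr

lemma Dat.t0_mem : t 0 ∈ RK (A := A) δ := by
  rw [mem_RK, h.dt', h.c0, map_one, inv_one]
  exact IsA.one

lemma Dat.noeth_R [IsNoetherianRing A] : IsNoetherianRing (RK (A := A) δ) := by
  have hS := h.noeth_S
  letI : Algebra (SK (A := A) δ) (RK (A := A) δ) := (Subring.inclusion (SK_le_RK δ)).toAlgebra
  have hfin : Module.Finite (SK (A := A) δ) (RK (A := A) δ) := by
    classical
    refine ⟨⟨{1, ⟨t 0, h.t0_mem⟩}, ?_⟩⟩
    rw [eq_top_iff]
    rintro ⟨r, hr⟩ _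
    obtain ⟨α, β, hα, hβ, e⟩ := h.RK_decomp hr
    have h1 : (⟨r, hr⟩ : RK (A := A) δ) = (⟨α, hα⟩ : SK (A := A) δ) • (1 : RK (A := A) δ) +
        (⟨β, hβ⟩ : SK (A := A) δ) • (⟨t 0, h.t0_mem⟩ : RK (A := A) δ) := by
      apply Subtype.ext
      change r = α * 1 + β * t 0
      rw [mul_one, e]
    rw [h1]
    refine add_mem ?_ ?_
    · exact Submodule.smul_mem _ _ (Submodule.subset_span (by simp))
    · exact Submodule.smul_mem _ _ (Submodule.subset_span (by simp))
  exact IsNoetherianRing.of_finite (SK (A := A) δ) (RK (A := A) δ)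

end Abs

end Pool.Agent.KS6_47.Smn
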