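import Pool.Agent.KS6_47.Smn.Abs

/-!
Dimension, normalization, seminormality and associated primes of the ring `R`.
-/

namespace Pool.Agent.KS6_47.Smn

universe u

section Abs

variable {A K : Type u} [CommRing A] [IsDomain A] [Field K] [Algebra A K] [IsFractionRing A K]
  [CharP K 2] {δ : Derivation ℤ K K} {t u c : ℕ → A} (h : Dat δ t u c)

lemma sq_mem_RK (a : A) : a ^ 2 ∈ RK δ := SK_le_RK δ (sq_mem_SK δ a)

lemma dim_eq : ringKrullDim (RK (A := A) δ) = ringKrullDim A := by
  have h1 := PrimeSpectrum.isHomeomorph_comap (RK (A := A) δ).subtype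
    (fun x => ⟨2, two_pos, ⟨⟨x ^ 2, sq_mem_RK x⟩, rfl⟩⟩) (by
      intro x hx
      have : x = 0 := Subtype.ext hx
      rw [this]
      exact Ideal.zero_mem _)
  have h2 : StrictMono (PrimeSpectrum.comap (RK (A := A) δ).subtype) := by
    intro P Q hPQ
    refine lt_of_le_of_ne (Ideal.comap_mono hPQ.le) ?_
    intro heq
    exact hPQ.ne (h1.injective heq)
  have h3 : ∀ P Q : PrimeSpectrum A, PrimeSpectrum.comap (RK (A := A) δ).subtype P ≤
      PrimeSpectrum.comap (RK (A := A) δ).subtype Q → P ≤ Q := by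
    intro P Q hPQ a ha
    have h4 : (⟨a ^ 2, sq_mem_RK a⟩ : RK (A := A) δ) ∈
        (PrimeSpectrum.comap (RK (A := A) δ).subtype P).asIdeal :=
      P.asIdeal.pow_mem_of_mem ha 2 two_pos
    have h5 := hPQ h4
    exact Q.2.mem_of_pow_mem 2 h5
  let e : PrimeSpectrum A ≃o PrimeSpectrum (RK (A := A) δ) :=
    { Equiv.ofBijective _ h1.bijective with
      map_rel_iff' := by
        intro P Q
        exact ⟨h3 P Q, fun hPQ => h2.monotone hPQ⟩ }
  exact (Order.krullDim_eq_of_orderIso e).symm

include h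

lemma Dat.isFrac : IsFractionRing (RK (A := A) δ) K := by
  have hmap : ∀ r : RK (A := A) δ, algebraMap (RK (A := A) δ) K r = algebraMap A K r := fun _ => rfl
  refine ⟨?_, ?_, ?_⟩
  · rintro ⟨y, hy⟩
    have hy0 : y ≠ 0 := nonZeroDivisors.ne_zero hy
    apply IsUnit.mk0
    rw [hmap]
    exact alg_ne (fun h0 => hy0 (Subtype.ext h0))
  · intro z
    obtain ⟨⟨a, b⟩, hab⟩ := IsLocalization.surj (nonZeroDivisors A) z
    simp only at hab
    have hb : (b : A) ≠ 0 := nonZeroDivisors.ne_zero b.2
    obtain ⟨i, hi⟩ := h.ev (a * b)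
    have h1 : c i ^ 2 * (a * b) ∈ RK δ := by
      rw [mem_RK, map_mul, δ.leibniz, map_pow, delta_sq, smul_zero, add_zero, smul_eq_mul, pow_two,
        mul_assoc]
      exact (IsA.coe _).mul hi
    have h2 : (c i * b) ^ 2 ∈ RK (A := A) δ := sq_mem_RK _
    have h3 : (⟨_, h2⟩ : RK (A := A) δ) ∈ nonZeroDivisors (RK (A := A) δ) := by
      rw [mem_nonZeroDivisors_iff_ne_zero]
      intro h0
      exact pow_ne_zero 2 (mul_ne_zero (h.cne i) hb) (congrArg Subtype.val h0)
    refine ⟨(⟨_, h1⟩, ⟨⟨_, h2⟩, h3⟩), ?_⟩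
    rw [hmap, hmap]
    simp only [map_mul, map_pow]
    linear_combination (algebraMap A K (c i) ^ 2 * algebraMap A K (b : A)) * hab
  · intro x y hxy
    refine ⟨1, ?_⟩
    rw [hmap, hmap] at hxy
    have := IsFractionRing.injective A K hxy
    rw [Subtype.ext this]

omit h in
lemma mem_intClosure [IsIntegrallyClosed A] {z : K} :
    z ∈ integralClosure (RK (A := A) δ) K ↔ IsA A z := by
  constructor
  · intro hz
    have h1 : IsIntegral (RK (A := A) δ) z := hz
    have h2 : IsIntegral A z := h1.tower_top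
    obtain ⟨a, ha⟩ := IsIntegrallyClosed.isIntegral_iff.mp h2
    exact ⟨a, ha⟩
  · rintro ⟨a, rfl⟩
    change IsIntegral (RK (A := A) δ) _
    apply IsIntegral.of_pow (n := 2) two_pos
    rw [← map_pow]
    exact isIntegral_algebraMap (R := RK (A := A) δ) (x := ⟨a ^ 2, sq_mem_RK a⟩)

omit h in
lemma mem_range_R {z : K} : z ∈ (algebraMap (RK (A := A) δ) K).range ↔
    ∃ a : A, a ∈ RK δ ∧ algebraMap A K a = z := by
  constructor
  · rintro ⟨r, rfl⟩
    exact ⟨r, r.2, rfl⟩
  · rintro ⟨a, ha, rfl⟩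
    exact ⟨⟨a, ha⟩, rfl⟩

/-- an auxiliary step: if `c (i+1) δ(x) ∈ A` and `x ^ 2 δ(x) ∈ A` then `c i δ(x) ∈ A` -/
lemma Dat.descend {x : A} (hx : IsA A (algebraMap A K (x ^ 2) * δ (algebraMap A K x))) (i : ℕ)
    (hi : IsA A (algebraMap A K (c (i + 1)) * δ (algebraMap A K x))) :
    IsA A (algebraMap A K (c i) * δ (algebraMap A K x)) := by
  obtain ⟨y, hy⟩ := hi
  obtain ⟨w, hw⟩ := hx
  have hcu : algebraMap A K (c (i + 1)) = algebraMap A K (c i) * algebraMap A K (u i) := by
    rw [h.cs, map_mul]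
  rcases h.up i with hu | hu
  · obtain ⟨v, hv⟩ := hu.exists_right_inv
    refine ⟨y * v, ?_⟩
    have hv' : algebraMap A K (u i) * algebraMap A K v = 1 := by rw [← map_mul, hv, map_one]
    rw [map_mul, hy, hcu]
    linear_combination (algebraMap A K (c i) * δ (algebraMap A K x)) * hv'
  · -- `u i` is prime
    have hu0 : algebraMap A K (u i) ≠ 0 := alg_ne hu.ne_zero
    have hdu : δ (algebraMap A K (u i)) = 0 := by
      have h1 := h.dc (i + 1)
      rw [h.cs, map_mul, δ.leibniz, h.dc i, smul_zero, add_zero, smul_eq_mul] at h1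
      exact (mul_eq_zero.mp h1).resolve_left (alg_ne (h.cne i))
    have hdvd : u i ∣ y := by
      have h1 : u i ∣ x ^ 2 * y := by
        refine ⟨c i * w, (IsFractionRing.injective A K) ?_⟩
        rw [map_mul, map_mul, map_mul, hy, hw, hcu]
        ring
      rcases hu.dvd_or_dvd h1 with h2 | h2
      · have h3 := hu.dvd_of_dvd_pow h2
        obtain ⟨z, rfl⟩ := h3
        -- `y = u i * (c (i+1) δ z)`
        obtain ⟨j, hj⟩ := h.ev' z
        obtain ⟨m, hm⟩ := hj (max j (i + 1)) (le_max_left _ _)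
        obtain ⟨e, he⟩ := h.dvd (le_max_right j (i + 1))
        have hy2 : algebraMap A K y =
            algebraMap A K (u i) * (algebraMap A K (c (i + 1)) * δ (algebraMap A K z)) := by
          rw [hy, map_mul, δ.leibniz, hdu, smul_zero, add_zero, smul_eq_mul]
          ring
        have h4 : e * y = u i * m := by
          apply IsFractionRing.injective A K
          rw [map_mul, map_mul, hm, hy2, he, map_mul]
          ring
        have h5 : u i ∣ e * y := ⟨m, h4⟩
        rcases hu.dvd_or_dvd h5 with h6 | h6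
        · exfalso
          -- `e` is the product of the `u j`, `j > i`
          have key : ∀ n, ∀ e, c (i + 1 + n) = c (i + 1) * e → ¬ u i ∣ e := by
            intro n
            induction n with
            | zero =>
              intro e he hdvd
              have h7 : e = 1 := by
                apply mul_left_cancel₀ (h.cne (i + 1))
                rw [← he, mul_one]
              rw [h7] at hdvd
              exact hu.not_isUnit (isUnit_of_dvd_one hdvd)
            | succ n ih =>
              intro e he hdvd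
              obtain ⟨e', he'⟩ := h.dvd (show i + 1 ≤ i + 1 + n by omega)
              have h7 : e = e' * u (i + 1 + n) := by
                apply mul_left_cancel₀ (h.cne (i + 1))
                rw [← he, ← mul_assoc, ← he']
                exact h.cs _
              rw [h7] at hdvd
              rcases hu.dvd_or_dvd hdvd with h8 | h8
              · exact ih e' he' h8
              · exact h.uu i (i + 1 + n) (by omega) hu h8
          obtain ⟨n, hn⟩ := Nat.exists_eq_add_of_le (le_max_right j (i + 1))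
          rw [hn] at he
          exact key n e he h6
        · exact h6
      · exact h2
    obtain ⟨y', rfl⟩ := hdvd
    refine ⟨y', ?_⟩
    apply mul_left_cancel₀ hu0
    rw [← map_mul, hy, hcu]
    ring

lemma Dat.seminormal [IsIntegrallyClosed A] (x : K)
    (h2 : x ^ 2 ∈ (algebraMap (RK (A := A) δ) K).range)
    (h3 : x ^ 3 ∈ (algebraMap (RK (A := A) δ) K).range) :
    x ∈ (algebraMap (RK (A := A) δ) K).range := by
  have h4 : IsA A x := by
    rw [← mem_intClosure (δ := δ)]
    change IsIntegral (RK (A := A) δ) x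
    apply IsIntegral.of_pow (n := 2) two_pos
    obtain ⟨r, hr⟩ := h2
    rw [← hr]
    exact isIntegral_algebraMap
  obtain ⟨a, rfl⟩ := h4
  rw [mem_range_R] at h3 ⊢
  refine ⟨a, ?_, rfl⟩
  obtain ⟨b, hb, hb'⟩ := h3
  have h5 : IsA A (algebraMap A K (a ^ 2) * δ (algebraMap A K a)) := by
    rw [mem_RK, hb'] at hb
    have h6 : δ (algebraMap A K a ^ 3) = algebraMap A K (a ^ 2) * δ (algebraMap A K a) := by
      rw [pow_succ, δ.leibniz, delta_sq, smul_zero, add_zero, smul_eq_mul, map_pow]
    rwa [h6] at hb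
  obtain ⟨i, hi⟩ := h.ev a
  rw [mem_RK]
  have h7 : ∀ i, IsA A (algebraMap A K (c i) * δ (algebraMap A K a)) →
      IsA A (δ (algebraMap A K a)) := by
    intro i
    induction i with
    | zero => intro h8; rwa [h.c0, map_one, one_mul] at h8
    | succ i ih => intro h8; exact ih (h.descend h5 i h8)
  exact h7 i hi

/-- every height one prime ideal is `u_i A ∩ R` -/
lemma Dat.height_one (P : Ideal (RK (A := A) δ)) [hP : P.IsPrime] (hP1 : P.height = 1) :
    ∃ i, Prime (u i) ∧ ∀ r : RK (A := A) δ, r ∈ P ↔ u i ∣ (r : A) := by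
  -- the prime ideal of `A` over `P`
  let f : RK (A := A) δ →+* A := (RK (A := A) δ).subtype
  let P' : Ideal A := (P.map f).radical
  have hmem : ∀ a : A, a ∈ P' ↔ (⟨a ^ 2, sq_mem_RK a⟩ : RK (A := A) δ) ∈ P := by
    intro a
    constructor
    · rintro ⟨n, hn⟩
      -- elements of `P A` have squares in `P`
      have h1 : ∀ x ∈ P.map f, (⟨x ^ 2, sq_mem_RK x⟩ : RK (A := A) δ) ∈ P := by
        intro x hx
        refine Submodule.span_induction (p := fun x _ =>
          (⟨x ^ 2, sq_mem_RK x⟩ : RK (A := A) δ) ∈ P) ?_ ?_ ?_ ?_ hx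
        · rintro _ ⟨y, hy, rfl⟩
          exact P.pow_mem_of_mem hy 2 two_pos
        · have : (⟨(0 : A) ^ 2, sq_mem_RK 0⟩ : RK (A := A) δ) = 0 :=
            Subtype.ext (zero_pow two_ne_zero)
          rw [this]; exact P.zero_mem
        · intro x y _ _ hx hy
          have : (⟨(x + y) ^ 2, sq_mem_RK (x + y)⟩ : RK (A := A) δ) =
              ⟨x ^ 2, sq_mem_RK x⟩ + ⟨y ^ 2, sq_mem_RK y⟩ := by
            apply Subtype.ext
            change (x + y) ^ 2 = x ^ 2 + y ^ 2
            have h2 : (2 : A) = 0 := (IsFractionRing.injective A K) (by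
              rw [map_ofNat, map_zero]; exact CharTwo.two_eq_zero)
            linear_combination (x * y) * h2
          rw [this]
          exact P.add_mem hx hy
        · intro b x _ hx
          have : (⟨(b • x) ^ 2, sq_mem_RK (b • x)⟩ : RK (A := A) δ) =
              ⟨b ^ 2, sq_mem_RK b⟩ * ⟨x ^ 2, sq_mem_RK x⟩ := by
            apply Subtype.ext
            change (b * x) ^ 2 = b ^ 2 * x ^ 2
            ring
          rw [this]
          exact P.mul_mem_left _ hx
      have h2 := h1 _ hn
      have h3 : (⟨(a ^ n) ^ 2, sq_mem_RK (a ^ n)⟩ : RK (A := A) δ) =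
          (⟨a ^ 2, sq_mem_RK a⟩ : RK (A := A) δ) ^ n := by
        apply Subtype.ext
        change (a ^ n) ^ 2 = (a ^ 2) ^ n
        ring
      rw [h3] at h2
      exact hP.mem_of_pow_mem _ h2
    · intro ha
      exact ⟨2, Ideal.mem_map_of_mem f ha⟩
  have hP'prime : P'.IsPrime := by
    constructor
    · intro htop
      have h1 : (1 : A) ∈ P' := by rw [htop]; trivial
      rw [hmem] at h1
      apply hP.ne_top
      rw [Ideal.eq_top_iff_one]
      convert h1 using 1
      apply Subtype.ext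
      change (1 : A) = 1 ^ 2
      ring
    · intro a b hab
      rw [hmem] at hab
      have h1 : (⟨(a * b) ^ 2, sq_mem_RK (a * b)⟩ : RK (A := A) δ) =
          ⟨a ^ 2, sq_mem_RK a⟩ * ⟨b ^ 2, sq_mem_RK b⟩ := by
        apply Subtype.ext
        change (a * b) ^ 2 = a ^ 2 * b ^ 2
        ring
      rw [h1] at hab
      rcases hP.mem_or_mem hab with h2 | h2
      · exact Or.inl ((hmem a).mpr h2)
      · exact Or.inr ((hmem b).mpr h2)
  have hPbot : P ≠ ⊥ := by
    rintro rfl
    rw [Ideal.height_bot] at hP1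
    exact zero_ne_one hP1
  have hP'bot : P' ≠ ⊥ := by
    intro h0
    obtain ⟨r, hr, hr0⟩ := (Submodule.ne_bot_iff _).mp hPbot
    have h1 : (r : A) ∈ P' := Ideal.le_radical (Ideal.mem_map_of_mem f hr)
    rw [h0] at h1
    exact hr0 (Subtype.ext h1)
  obtain ⟨i, hi, hiP⟩ := h.enough P' hP'prime hP'bot
  refine ⟨i, hi, ?_⟩
  -- the ideal `u_i A ∩ R`
  let Q : Ideal (RK (A := A) δ) := (Ideal.span {u i}).comap f
  have hQprime : Q.IsPrime := by
    have : (Ideal.span {u i}).IsPrime := (Ideal.span_singleton_prime hi.ne_zero).mpr hi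
    exact Ideal.comap_isPrime _ _
  have hQmem : ∀ r : RK (A := A) δ, r ∈ Q ↔ u i ∣ (r : A) := fun r => Ideal.mem_span_singleton
  have hQP : Q ≤ P := by
    intro r hr
    rw [hQmem] at hr
    obtain ⟨a, ha⟩ := hr
    apply hP.mem_of_pow_mem 2
    have h1 : r ^ 2 = ⟨a ^ 2, sq_mem_RK a⟩ * ⟨u i ^ 2, sq_mem_RK (u i)⟩ := by
      apply Subtype.ext
      change (r : A) ^ 2 = a ^ 2 * u i ^ 2
      rw [ha]; ring
    rw [h1]
    exact P.mul_mem_left _ ((hmem _).mp hiP)
  have hQbot : Q ≠ ⊥ := by
    intro h0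
    have h1 : (⟨u i ^ 2, sq_mem_RK (u i)⟩ : RK (A := A) δ) ∈ Q := by
      rw [hQmem]; exact dvd_pow_self _ two_ne_zero
    rw [h0] at h1
    exact pow_ne_zero 2 hi.ne_zero (congrArg Subtype.val h1)
  have hQeq : Q = P := by
    by_contra hne
    have hlt : Q < P := lt_of_le_of_ne hQP hne
    have hbotP : (⊥ : Ideal (RK (A := A) δ)).IsPrime := Ideal.isPrime_bot
    have h1 := Ideal.height_add_one_le_of_lt_of_isPrime (bot_lt_iff_ne_bot.mpr hQbot)
    have h2 := Ideal.height_add_one_le_of_lt_of_isPrime hlt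
    rw [hP1] at h2
    have h3 : (1 : ℕ∞) ≤ Q.height := le_trans (by simp) h1
    have h4 : (1 : ℕ∞) + 1 ≤ 1 := le_trans (by gcongr) h2
    norm_num at h4
  intro r
  rw [← hQeq, hQmem]

theorem Dat.assoc [IsIntegrallyClosed A] (P : Ideal (RK (A := A) δ)) (hP : P.IsPrime)
    (hP1 : P.height = 1) :
    ∃ m : (integralClosure (RK (A := A) δ) K) ⧸
      LinearMap.range (Algebra.linearMap (RK (A := A) δ) (integralClosure (RK (A := A) δ) K)),
      ∀ r : RK (A := A) δ, r ∈ P ↔ r • m = 0 := by
  obtain ⟨i, hi, hr⟩ := h.height_one P hP1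
  have hu0 : algebraMap A K (u i) ≠ 0 := alg_ne hi.ne_zero
  have hc0 : algebraMap A K (c i) ≠ 0 := alg_ne (h.cne i)
  -- the element `c_i t_{i+1}`
  obtain ⟨m, hm⟩ : ∃ m : A, m = c i * t (i + 1) := ⟨_, rfl⟩
  have hdm : δ (algebraMap A K m) = (algebraMap A K (u i))⁻¹ := by
    rw [hm, map_mul, δ.leibniz, h.dc, smul_zero, add_zero, smul_eq_mul, h.dt', h.cs, map_mul]
    field_simp
  have hmint : algebraMap A K m ∈ integralClosure (RK (A := A) δ) K := mem_intClosure.mpr ⟨m, rfl⟩
  refine ⟨Submodule.Quotient.mk ⟨_, hmint⟩, ?_⟩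
  intro r
  rw [hr r, ← Submodule.Quotient.mk_smul, Submodule.Quotient.mk_eq_zero]
  have hsm : ((r • (⟨_, hmint⟩ : integralClosure (RK (A := A) δ) K) :
      integralClosure (RK (A := A) δ) K) : K) = algebraMap A K (r : A) * algebraMap A K m := by
    rw [Subalgebra.coe_smul, Algebra.smul_def]
    rfl
  have hlin : ∀ s : RK (A := A) δ, ((Algebra.linearMap (RK (A := A) δ)
      (integralClosure (RK (A := A) δ) K) s : integralClosure (RK (A := A) δ) K) : K) =
      algebraMap A K (s : A) := fun s => rfl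
  have key : (r • (⟨_, hmint⟩ : integralClosure (RK (A := A) δ) K)) ∈ LinearMap.range
      (Algebra.linearMap (RK (A := A) δ) (integralClosure (RK (A := A) δ) K)) ↔
      (r : A) * m ∈ RK δ := by
    constructor
    · rintro ⟨s, hs⟩
      have h2 : algebraMap A K (s : A) = algebraMap A K (r : A) * algebraMap A K m := by
        rw [← hlin, hs, hsm]
      rw [← map_mul] at h2
      rw [← (IsFractionRing.injective A K) h2]
      exact s.2
    · intro hrm
      refine ⟨⟨_, hrm⟩, ?_⟩
      apply Subtype.ext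
      rw [hlin, hsm, map_mul]
  rw [key, mem_RK, map_mul, δ.leibniz, hdm, smul_eq_mul, smul_eq_mul]
  have hrR : IsA A (δ (algebraMap A K (r : A))) := r.2
  constructor
  · rintro ⟨a, ha⟩
    refine IsA.add ⟨a, ?_⟩ ((IsA.coe m).mul hrR)
    rw [ha, map_mul]
    field_simp
  · intro h1
    have h2 := h1.add ((IsA.coe m).mul hrR).neg
    rw [add_neg_cancel_right] at h2
    obtain ⟨a, ha⟩ := h2
    refine ⟨a, (IsFractionRing.injective A K) ?_⟩
    rw [map_mul, ha]
    field_simp

end Abs

end Pool.Agent.KS6_47.Smn
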