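import Pool.Agent.KS6_47.Smn.Main

/-!
The ring is local, and the associated primes are exactly the primes of height one.
-/

namespace Pool.Agent.KS6_47.Smn

universe u

section Abs

variable {A K : Type u} [CommRing A] [IsDomain A] [Field K] [Algebra A K] [IsFractionRing A K]
  [CharP K 2] {δ : Derivation ℤ K K} {t u c : ℕ → A}

lemma local_R [IsLocalRing A] : IsLocalRing (RK (A := A) δ) := by
  have : IsLocalHom (RK (A := A) δ).subtype := by
    refine ⟨fun r hr => ?_⟩
    obtain ⟨a, ha⟩ := hr.exists_right_inv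
    have ha' : (r : A) * a = 1 := ha
    have h1 : a = a ^ 2 * r := by
      calc a = (r * a) * a := by rw [ha', one_mul]
        _ = a ^ 2 * r := by ring
    have h2 : a ∈ RK δ := by
      rw [h1]
      exact mul_mem (sq_mem_RK a) r.2
    exact IsUnit.of_mul_eq_one ⟨a, h2⟩ (Subtype.ext ha')
  exact (RK (A := A) δ).subtype.domain_isLocalRing

/-- the order isomorphism between the spectra -/
lemma exists_iso : ∃ e : PrimeSpectrum A ≃o PrimeSpectrum (RK (A := A) δ),
    ∀ P, e P = PrimeSpectrum.comap (RK (A := A) δ).subtype P := by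
  have h1 := PrimeSpectrum.isHomeomorph_comap (RK (A := A) δ).subtype
    (fun x => ⟨2, two_pos, ⟨⟨x ^ 2, sq_mem_RK x⟩, rfl⟩⟩) (by
      intro x hx
      have : x = 0 := Subtype.ext hx
      rw [this]
      exact Ideal.zero_mem _)
  have h3 : ∀ P Q : PrimeSpectrum A, PrimeSpectrum.comap (RK (A := A) δ).subtype P ≤
      PrimeSpectrum.comap (RK (A := A) δ).subtype Q → P ≤ Q := by
    intro P Q hPQ a ha
    have h4 : (⟨a ^ 2, sq_mem_RK a⟩ : RK (A := A) δ) ∈
        (PrimeSpectrum.comap (RK (A := A) δ).subtype P).asIdeal :=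
      P.asIdeal.pow_mem_of_mem ha 2 two_pos
    have h5 := hPQ h4
    exact Q.2.mem_of_pow_mem 2 h5
  exact ⟨{ Equiv.ofBijective _ h1.bijective with
      map_rel_iff' := by
        intro P Q
        exact ⟨h3 P Q, fun hPQ => Ideal.comap_mono hPQ⟩ }, fun P => rfl⟩

lemma height_of_prime [IsNoetherianRing A] {π : A} (hπ : Prime π) (P : Ideal (RK (A := A) δ))
    (hP : ∀ r : RK (A := A) δ, r ∈ P ↔ π ∣ (r : A)) : P.height = 1 := by
  obtain ⟨e, he⟩ := exists_iso (A := A) (δ := δ)
  have hI : (Ideal.span {π}).IsPrime := (Ideal.span_singleton_prime hπ.ne_zero).mpr hπ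
  have hPe : P = (e ⟨Ideal.span {π}, hI⟩).asIdeal := by
    rw [he]
    ext r
    rw [hP]
    exact Ideal.mem_span_singleton.symm
  have hPp : P.IsPrime := by rw [hPe]; exact (e _).2
  have h1 : P.height = (Ideal.span {π}).height := by
    have h5 := Order.height_orderIso e ⟨Ideal.span {π}, hI⟩
    rw [← PrimeSpectrum.height_eq_orderHeight, ← PrimeSpectrum.height_eq_orderHeight, ← hPe] at h5
    exact h5
  rw [h1]
  apply le_antisymm
  · apply Ideal.height_le_one_of_isPrincipal_of_mem_minimalPrimes (Ideal.span {π})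
    rw [Ideal.minimalPrimes_eq_subsingleton_self]
    rfl
  · have h2 : (⊥ : Ideal A) < Ideal.span {π} := by
      rw [bot_lt_iff_ne_bot]
      intro h0
      exact hπ.ne_zero (Ideal.span_singleton_eq_bot.mp h0)
    have h3 := Ideal.height_add_one_le_of_lt_of_isPrime h2
    exact le_trans (by simp) h3

/-- multiples of a class in the normalization quotient -/
lemma smul_zero_iff [IsIntegrallyClosed A] (a : A)
    (hint : algebraMap A K a ∈ integralClosure (RK (A := A) δ) K) (r : RK (A := A) δ) :
    r • (Submodule.Quotient.mk ⟨algebraMap A K a, hint⟩ :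
      (integralClosure (RK (A := A) δ) K) ⧸
      LinearMap.range (Algebra.linearMap (RK (A := A) δ) (integralClosure (RK (A := A) δ) K))) = 0 ↔
      IsA A (algebraMap A K (r : A) * δ (algebraMap A K a)) := by
  rw [← Submodule.Quotient.mk_smul, Submodule.Quotient.mk_eq_zero]
  have hsm : ((r • (⟨_, hint⟩ : integralClosure (RK (A := A) δ) K) :
      integralClosure (RK (A := A) δ) K) : K) = algebraMap A K (r : A) * algebraMap A K a := by
    rw [Subalgebra.coe_smul, Algebra.smul_def]
    rfl
  have hlin : ∀ s : RK (A := A) δ, ((Algebra.linearMap (RK (A := A) δ)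
      (integralClosure (RK (A := A) δ) K) s : integralClosure (RK (A := A) δ) K) : K) =
      algebraMap A K (s : A) := fun s => rfl
  have key : (r • (⟨_, hint⟩ : integralClosure (RK (A := A) δ) K)) ∈ LinearMap.range
      (Algebra.linearMap (RK (A := A) δ) (integralClosure (RK (A := A) δ) K)) ↔
      (r : A) * a ∈ RK δ := by
    constructor
    · rintro ⟨s, hs⟩
      have h2 : algebraMap A K (s : A) = algebraMap A K (r : A) * algebraMap A K a := by
        rw [← hlin, hs, hsm]
      rw [← map_mul] at h2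
      rw [← (IsFractionRing.injective A K) h2]
      exact s.2
    · intro hrm
      refine ⟨⟨_, hrm⟩, ?_⟩
      apply Subtype.ext
      rw [hlin, hsm, map_mul]
  rw [key, mem_RK, map_mul, δ.leibniz, smul_eq_mul, smul_eq_mul]
  have hrR : IsA A (δ (algebraMap A K (r : A))) := r.2
  constructor
  · intro h1
    have h2 := h1.add ((IsA.coe a).mul hrR).neg
    rwa [add_neg_cancel_right] at h2
  · intro h1
    exact h1.add ((IsA.coe a).mul hrR)

lemma Dat.ufd (h : Dat δ t u c) : UniqueFactorizationMonoid A :=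
  UniqueFactorizationMonoid.iff_exists_prime_mem_of_isPrime.mpr fun P hP0 hP => by
    obtain ⟨i, hi, hiP⟩ := h.enough P hP hP0
    exact ⟨u i, hiP, hi⟩

/-- every associated prime has height one -/
theorem Dat.assoc_conv [IsIntegrallyClosed A] [IsNoetherianRing A] (h : Dat δ t u c)
    (P : Ideal (RK (A := A) δ)) (hP : P.IsPrime)
    (m : (integralClosure (RK (A := A) δ) K) ⧸
      LinearMap.range (Algebra.linearMap (RK (A := A) δ) (integralClosure (RK (A := A) δ) K)))
    (hm : ∀ r : RK (A := A) δ, r ∈ P ↔ r • m = 0) : P.height = 1 := by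
  have hufd : UniqueFactorizationMonoid A := h.ufd
  obtain ⟨⟨y, hy⟩, rfl⟩ := Submodule.Quotient.mk_surjective _ m
  obtain ⟨a, rfl⟩ := mem_intClosure.mp hy
  obtain ⟨n, b, hnb, hw⟩ := IsFractionRing.exists_reduced_fraction A (δ (algebraMap A K a))
  have hb0 : (b : A) ≠ 0 := nonZeroDivisors.ne_zero b.2
  have hbK : algebraMap A K (b : A) ≠ 0 := alg_ne hb0
  rw [IsLocalization.mk'_eq_iff_eq_mul] at hw
  have hb : ∀ r : RK (A := A) δ, r ∈ P ↔ (b : A) ∣ (r : A) := by
    intro r
    rw [hm r, smul_zero_iff a hy r]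
    constructor
    · rintro ⟨s, hs⟩
      apply hnb.symm.dvd_of_dvd_mul_left
      refine ⟨s, IsFractionRing.injective A K ?_⟩
      rw [map_mul, map_mul, hw, hs]
      ring
    · rintro ⟨s, hs⟩
      refine ⟨s * n, ?_⟩
      rw [hs, map_mul, map_mul, hw]
      ring
  have hbu : ¬ IsUnit (b : A) := by
    intro hu
    apply hP.ne_top
    rw [Ideal.eq_top_iff_one, hb]
    exact hu.dvd
  obtain ⟨π, hπ, hπb⟩ := WfDvdMonoid.exists_irreducible_factor hbu hb0
  have hπp : Prime π := UniqueFactorizationMonoid.irreducible_iff_prime.mp hπ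
  obtain ⟨k, b', hb', hbk⟩ := WfDvdMonoid.max_power_factor hb0 hπ
  apply height_of_prime hπp P
  intro r
  rw [hb]
  constructor
  · intro h1
    exact hπb.trans h1
  · rintro ⟨s, hs⟩
    have h1 : r ^ (2 * k) * ⟨b' ^ 2, sq_mem_RK b'⟩ ∈ P := by
      rw [hb]
      refine ⟨b * s ^ (2 * k), ?_⟩
      change (r : A) ^ (2 * k) * b' ^ 2 = b * (b * s ^ (2 * k))
      rw [hs, hbk]
      ring
    rcases hP.mem_or_mem h1 with h2 | h2
    · exact (hb r).mp (hP.mem_of_pow_mem _ h2)
    · rw [hb] at h2
      exact absurd (hπp.dvd_of_dvd_pow (hπb.trans h2)) hb'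

/-- the normalization -/
lemma exists_equiv [IsIntegrallyClosed A] :
    Nonempty (A ≃+* integralClosure (RK (A := A) δ) K) := by
  let f : A →+* integralClosure (RK (A := A) δ) K :=
    (algebraMap A K).codRestrict (integralClosure (RK (A := A) δ) K).toSubring
      (fun a => mem_intClosure.mpr ⟨a, rfl⟩)
  refine ⟨RingEquiv.ofBijective f ⟨fun a b hab => ?_, ?_⟩⟩
  · exact IsFractionRing.injective A K (congrArg Subtype.val hab)
  · rintro ⟨y, hy⟩
    obtain ⟨a, rfl⟩ := mem_intClosure.mp hy
    exact ⟨a, rfl⟩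

end Abs

section Final

/-- `R` is a local ring, the associated primes of its normalization quotient are exactly the primes
of height one, and its normalization `N` is a local Noetherian factorial ring with `x² ∈ R` for all
`x ∈ N` -/
structure Good (R K : Type) [CommRing R] [IsDomain R] [Field K] [Algebra R K] : Prop where
  noeth : IsNoetherianRing R
  isLocal : IsLocalRing R
  seminormal : ∀ x : K, x ^ 2 ∈ (algebraMap R K).range → x ^ 3 ∈ (algebraMap R K).range →
    x ∈ (algebraMap R K).range
  assoc : ∀ P : Ideal R, (P.IsPrime ∧ ∃ m : (integralClosure R K) ⧸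
    LinearMap.range (Algebra.linearMap R (integralClosure R K)), ∀ r : R, r ∈ P ↔ r • m = 0) ↔
      P.IsPrime ∧ P.height = 1
  sq : ∀ x ∈ integralClosure R K, x ^ 2 ∈ (algebraMap R K).range
  nLocal : IsLocalRing (integralClosure R K)
  nNoeth : IsNoetherianRing (integralClosure R K)
  nUfd : UniqueFactorizationMonoid (integralClosure R K)

theorem final_gen2 {A K : Type} [CommRing A] [IsDomain A] [Field K] [Algebra A K]
    [IsFractionRing A K] [CharP K 2] [IsNoetherianRing A] [IsIntegrallyClosed A] [IsLocalRing A]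
    {δ : Derivation ℤ K K} {t u c : ℕ → A} (h : Dat δ t u c) :
    ∃ (R : Type) (_ : CommRing R) (_ : IsDomain R) (_ : Algebra R K)
    (_ : IsFractionRing R K), ringKrullDim R = ringKrullDim A ∧ Good R K := by
  refine ⟨RK (A := A) δ, inferInstance, inferInstance, inferInstance, h.isFrac, dim_eq,
    h.noeth_R, local_R, h.seminormal, fun P => ⟨?_, ?_⟩, ?_, ?_, ?_, ?_⟩
  · rintro ⟨hP, m, hm⟩
    exact ⟨hP, h.assoc_conv P hP m hm⟩
  · rintro ⟨hP, hP1⟩
    exact ⟨hP, h.assoc P hP hP1⟩
  · intro x hx
    obtain ⟨a, rfl⟩ := mem_intClosure.mp hx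
    exact ⟨⟨a ^ 2, sq_mem_RK a⟩, map_pow (algebraMap A K) a 2⟩
  · obtain ⟨e⟩ := exists_equiv (A := A) (K := K) (δ := δ)
    exact e.isLocalRing
  · obtain ⟨e⟩ := exists_equiv (A := A) (K := K) (δ := δ)
    exact isNoetherianRing_of_ringEquiv A e
  · obtain ⟨e⟩ := exists_equiv (A := A) (K := K) (δ := δ)
    have := h.ufd
    exact e.toMulEquiv.uniqueFactorizationMonoid this

theorem final2 (d : ℕ) : ∃ (R K : Type) (_ : CommRing R) (_ : IsDomain R) (_ : Field K)
    (_ : Algebra R K) (_ : IsFractionRing R K), ringKrullDim R = (d : WithBot ℕ∞) ∧ Good R K := by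
  obtain ⟨A, i1, i2, i3, i4, i8⟩ : ∃ (A : Type) (_ : CommRing A) (_ : IsDomain A)
      (_ : Algebra (B2 d) A), IsLocalization.AtPrime A (pp d) ∧ IsLocalRing A :=
    ⟨Localization.AtPrime (pp d), inferInstance, locDomain d, inferInstance, inferInstance,
      inferInstance⟩
  obtain ⟨K, i5, i6, i7⟩ : ∃ (K : Type) (_ : Field K) (_ : Algebra A K), IsFractionRing A K :=
    ⟨FractionRing A, inferInstance, inferInstance, inferInstance⟩
  have hch : CharP K 2 := by
    have hb : Function.Injective ((algebraMap A K).comp (algebraMap (B2 d) A)) :=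
      (IsFractionRing.injective A K).comp bA_injective
    exact (RingHom.charP_iff _ hb 2).mp inferInstance
  have hnoeth : IsNoetherianRing A := A_noeth (d := d)
  have hclosed : IsIntegrallyClosed A := A_intClosed (d := d)
  obtain ⟨δ, t, u, c, h⟩ := exists_all (d := d) (A := A) (K := K)
  obtain ⟨R, j1, j2, j3, j4, j5, j6⟩ := final_gen2 h
  exact ⟨R, K, j1, j2, i5, j3, j4, by rw [j5, A_dim (d := d)], j6⟩

end Final

end Pool.Agent.KS6_47.Smn
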