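import Pool.Agent.KS6_47.Smn.Rec

/-!
The recursive construction of the derivation `δ`, second part.
-/

open MvPolynomial

namespace Pool.Agent.KS6_47.Smn

/-- the elements `c_i` -/
noncomputable def cK {K : Type} [Field K] (P : ℕ → Derivation ℤ K K) (τ γ : ℕ → K) : ℕ → K
  | 0 => 1
  | (i + 1) => cK P τ γ i * γ i /
      (1 + cK P τ γ i * (∑ j : Fin (i + 1), P j (γ i) * (cK P τ γ j)⁻¹) * τ (i + 1))
  decreasing_by all_goals omega

section Rec

variable {K : Type} [Field K] (P : ℕ → Derivation ℤ K K) (τ γ : ℕ → K)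

lemma cK_zero : cK P τ γ 0 = 1 := by rw [cK]

lemma cK_succ (i : ℕ) : cK P τ γ (i + 1) = cK P τ γ i * γ i /
    (1 + cK P τ γ i * (∑ j ∈ Finset.range (i + 1), P j (γ i) * (cK P τ γ j)⁻¹) * τ (i + 1)) := by
  rw [cK, Finset.sum_range (f := fun j => P j (γ i) * (cK P τ γ j)⁻¹)]

lemma char_two_double_sum [CharP K 2] (N : ℕ) (f : ℕ → ℕ → K) (hsymm : ∀ i j, f i j = f j i)
    (hdiag : ∀ i, f i i = 0) :
    ∑ i ∈ Finset.range N, ∑ j ∈ Finset.range N, f i j = 0 := by
  rw [← Finset.sum_product']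
  refine Finset.sum_involution (fun x _ => (x.2, x.1)) ?_ ?_ ?_ ?_
  · rintro ⟨i, j⟩ _
    simp only
    rw [hsymm j i, ← two_mul]
    have : (2 : K) = 0 := CharTwo.two_eq_zero
    rw [this, zero_mul]
  · rintro ⟨i, j⟩ _ hne heq
    simp only at hne
    have : i = j := (Prod.mk.inj heq).2
    subst this
    exact hne (hdiag i)
  · rintro ⟨i, j⟩ hij
    simp only [Finset.mem_product, Finset.mem_range] at hij ⊢
    exact ⟨hij.2, hij.1⟩
  · rintro ⟨i, j⟩ _
    rfl

variable {P τ γ} [CharP K 2] {D : Derivation ℤ K K} {c : ℕ → K}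
  (hcomm : ∀ i j z, P i (P j z) = P j (P i z)) (hsq : ∀ j z, P j (P j z) = 0)
  (hform : ∀ z N, (∀ j ≥ N, P j z = 0) → D z = ∑ j ∈ Finset.range N, P j z * D (τ j))
  (hDτ : ∀ j, D (τ j) = (c j)⁻¹)

include hcomm hsq hform hDτ in
lemma delta_delta (z : K) (N : ℕ) (hN : ∀ j ≥ N, P j z = 0) (hc : ∀ j < N, D (c j) = 0) :
    D (D z) = 0 := by
  have h1 : ∀ j < N, D ((c j)⁻¹) = 0 := by
    intro j hj
    rw [D.leibniz_inv, hc j hj, smul_zero]
  have h2 : ∀ j, D (P j z) = ∑ l ∈ Finset.range N, P l (P j z) * (c l)⁻¹ := by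
    intro j
    rw [hform (P j z) N (fun l hl => by rw [hcomm, hN l hl, map_zero])]
    apply Finset.sum_congr rfl
    intro l _
    rw [hDτ]
  rw [hform z N hN, map_sum]
  have h3 : ∀ j ∈ Finset.range N, D (P j z * D (τ j)) =
      ∑ l ∈ Finset.range N, P l (P j z) * (c l)⁻¹ * (c j)⁻¹ := by
    intro j hj
    rw [Finset.mem_range] at hj
    rw [hDτ, D.leibniz, h1 j hj, smul_zero, zero_add, smul_eq_mul, h2, Finset.mul_sum]
    apply Finset.sum_congr rfl
    intro l _
    ring
  rw [Finset.sum_congr rfl h3]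
  apply char_two_double_sum
  · intro i j
    rw [hcomm]; ring
  · intro i
    rw [hsq, zero_mul, zero_mul]

end Rec

section Build

variable {A K : Type} [CommRing A] [IsDomain A] [Field K] [Algebra A K] [IsFractionRing A K]
  [CharP K 2] {P : ℕ → Derivation ℤ K K} {t : ℕ → A} {D : Derivation ℤ K K} {γ : ℕ → A}
  (hcomm : ∀ i j z, P i (P j z) = P j (P i z)) (hsq : ∀ j z, P j (P j z) = 0)
  (hform : ∀ z N, (∀ j ≥ N, P j z = 0) →
    D z = ∑ j ∈ Finset.range N, P j z * D (algebraMap A K (t j)))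
  (hfin : ∀ z, ∃ N, ∀ j ≥ N, P j z = 0)
  (hDτ : ∀ j, D (algebraMap A K (t j)) =
    (cK P (fun j => algebraMap A K (t j)) (fun j => algebraMap A K (γ j)) j)⁻¹)
  (hPt : ∀ l j, l ≠ j → P l (algebraMap A K (t j)) = 0)
  (hPA : ∀ j (a : A), IsA A (P j (algebraMap A K a)))
  (hunit : ∀ (a : A) l, P l (algebraMap A K a) = 0 → IsUnit (1 + a * t l))
  (hγ0 : ∀ i, γ i ≠ 0) (hγ : ∀ i, ∀ l > i, P l (algebraMap A K (γ i)) = 0)

include hcomm hsq hform hDτ hPt hPA hunit hγ0 hγ

lemma step (i : ℕ) (c : ℕ → K)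
    (hc : c = cK P (fun j => algebraMap A K (t j)) (fun j => algebraMap A K (γ j)))
    (hne : ∀ j ≤ i, c j ≠ 0) (hP : ∀ j ≤ i, ∀ l > j, P l (c j) = 0) (hD : ∀ j ≤ i, D (c j) = 0)
    (hA : ∀ j ≤ i, IsA A (c i * (c j)⁻¹)) :
    (∃ u v : A, IsUnit v ∧ u = γ i * v ∧ c (i + 1) = c i * algebraMap A K u) ∧
      (∀ l > i + 1, P l (c (i + 1)) = 0) ∧ D (c (i + 1)) = 0 := by
  have hDτ' : ∀ j, D (algebraMap A K (t j)) = (c j)⁻¹ := by rw [hc]; exact hDτ
  obtain ⟨g, hg⟩ : ∃ g, g = algebraMap A K (γ i) := ⟨_, rfl⟩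
  have hg0 : g ≠ 0 := by rw [hg]; exact alg_ne (hγ0 i)
  have hgP : ∀ l ≥ i + 1, P l g = 0 := by
    intro l hl; rw [hg]; exact hγ i l (by omega)
  obtain ⟨w, hw⟩ : ∃ w, w = c i * ∑ j ∈ Finset.range (i + 1), P j g * (c j)⁻¹ := ⟨_, rfl⟩
  have hDg : D g = ∑ j ∈ Finset.range (i + 1), P j g * (c j)⁻¹ := by
    rw [hform g (i + 1) hgP]
    apply Finset.sum_congr rfl
    intro j _
    rw [hDτ']
  have hw2 : w = c i * D g := by rw [hw, hDg]
  have hwA : IsA A w := by
    rw [hw, Finset.mul_sum]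
    apply IsA.sum
    intro j hj
    rw [Finset.mem_range] at hj
    have h1 := (hPA j (γ i)).mul (hA j (by omega))
    rw [← hg] at h1
    convert h1 using 1
    ring
  have hDw : D w = 0 := by
    rw [hw2, D.leibniz, hD i le_rfl, smul_zero, add_zero, smul_eq_mul]
    have h1 := delta_delta (τ := fun j => algebraMap A K (t j)) hcomm hsq hform hDτ' g (i + 1) hgP
      (fun j hj => hD j (by omega))
    rw [h1, mul_zero]
  have hPw : ∀ l > i, P l w = 0 := by
    intro l hl
    rw [hw, (P l).leibniz, hP i le_rfl l hl, smul_zero, add_zero, map_sum, Finset.sum_eq_zero,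
      smul_zero]
    intro j hj
    rw [Finset.mem_range] at hj
    rw [(P l).leibniz, hcomm l j, hgP l (by omega), map_zero, smul_zero, add_zero,
      (P l).leibniz_inv, hP j (by omega) l (by omega), smul_zero, smul_zero]
  obtain ⟨a, ha⟩ := hwA
  have hua : IsUnit (1 + a * t (i + 1)) := by
    apply hunit
    rw [ha]
    exact hPw _ (by omega)
  obtain ⟨v, hv⟩ := hua.exists_right_inv
  obtain ⟨q, hq⟩ : ∃ q, q = 1 + w * algebraMap A K (t (i + 1)) := ⟨_, rfl⟩
  have hqa : q = algebraMap A K (1 + a * t (i + 1)) := by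
    rw [hq, map_add, map_mul, map_one, ha]
  have hqv : q * algebraMap A K v = 1 := by rw [hqa, ← map_mul, hv, map_one]
  have hq0 : q ≠ 0 := left_ne_zero_of_mul (by rw [hqv]; exact one_ne_zero)
  have hcs : c (i + 1) = c i * g / q := by
    rw [hc, cK_succ, ← hc, hq, hw, hg]
  have hci := hne i le_rfl
  refine ⟨⟨γ i * v, v, ?_, rfl, ?_⟩, ?_, ?_⟩
  · exact IsUnit.of_mul_eq_one (1 + a * t (i + 1)) (by rw [mul_comm]; exact hv)
  · rw [hcs, map_mul, ← hg, div_eq_mul_inv, mul_assoc]
    congr 2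
    exact inv_eq_of_mul_eq_one_right hqv
  · intro l hl
    have hPq : P l q = 0 := by
      rw [hq, map_add, (P l).map_one_eq_zero, (P l).leibniz, hPw l (by omega),
        hPt l (i + 1) (by omega), smul_zero, smul_zero, add_zero, add_zero]
    rw [hcs, div_eq_mul_inv, (P l).leibniz, (P l).leibniz, (P l).leibniz_inv, hPq,
      hP i le_rfl l (by omega), hgP l (by omega)]
    simp
  · have hDq : D q = w * (c (i + 1))⁻¹ := by
      rw [hq, map_add, D.map_one_eq_zero, D.leibniz, hDw, smul_zero, add_zero, zero_add, hDτ',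
        smul_eq_mul]
    have hDg' : D g = w * (c i)⁻¹ := by
      rw [hw2]; field_simp
    rw [hcs, div_eq_mul_inv, D.leibniz, D.leibniz, D.leibniz_inv, hDq, hD i le_rfl, hDg', hcs]
    simp only [smul_eq_mul, mul_zero, add_zero]
    field_simp
    ring

include hfin in
theorem exists_dat (hup : ∀ i, γ i = 1 ∨ Prime (γ i))
    (huu : ∀ i j, i ≠ j → Prime (γ i) → Prime (γ j) → ¬ Associated (γ i) (γ j))
    (henough : ∀ g, Prime g → ∃ i, Prime (γ i) ∧ Associated (γ i) g)
    (hprime : ∀ Q : Ideal A, Q.IsPrime → Q ≠ ⊥ → ∃ g ∈ Q, Prime g) :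
    ∃ u c : ℕ → A, Dat D t u c := by
  obtain ⟨c, hc⟩ : ∃ c, c = cK P (fun j => algebraMap A K (t j)) (fun j => algebraMap A K (γ j)) :=
    ⟨_, rfl⟩
  have hDτ' : ∀ j, D (algebraMap A K (t j)) = (c j)⁻¹ := by rw [hc]; exact hDτ
  have hc0 : c 0 = 1 := by rw [hc, cK_zero]
  have main : ∀ i, c i ≠ 0 ∧ (∀ l > i, P l (c i) = 0) ∧ D (c i) = 0 ∧
      (∀ j ≤ i, IsA A (c i * (c j)⁻¹)) := by
    intro i
    induction i using Nat.strong_induction_on with
    | _ i ih =>
      rcases i with _ | i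
      · refine ⟨by rw [hc0]; exact one_ne_zero, ?_, ?_, ?_⟩
        · intro l _; rw [hc0]; exact (P l).map_one_eq_zero
        · rw [hc0]; exact D.map_one_eq_zero
        · intro j hj
          have : j = 0 := by omega
          rw [this, hc0, inv_one, mul_one]
          exact IsA.one
      · obtain ⟨⟨u, v, hv, hu, hcu⟩, h2, h3⟩ := step hcomm hsq hform hDτ hPt hPA hunit hγ0 hγ i c hc
          (fun j hj => (ih j (by omega)).1) (fun j hj => (ih j (by omega)).2.1)
          (fun j hj => (ih j (by omega)).2.2.1) (ih i (by omega)).2.2.2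
        have hu0 : u ≠ 0 := by rw [hu]; exact mul_ne_zero (hγ0 i) hv.ne_zero
        have hne : c (i + 1) ≠ 0 := by
          rw [hcu]; exact mul_ne_zero (ih i (by omega)).1 (alg_ne hu0)
        refine ⟨hne, h2, h3, ?_⟩
        intro j hj
        rcases Nat.lt_or_ge j (i + 1) with h | h
        · have h4 := ((ih i (by omega)).2.2.2 j (by omega)).mul (IsA.coe u)
          convert h4 using 1
          rw [hcu]; ring
        · have : j = i + 1 := by omega
          rw [this, mul_inv_cancel₀ hne]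
          exact IsA.one
  have hstep : ∀ i, ∃ u v : A, IsUnit v ∧ u = γ i * v ∧ c (i + 1) = c i * algebraMap A K u := by
    intro i
    exact (step hcomm hsq hform hDτ hPt hPA hunit hγ0 hγ i c hc
          (fun j hj => (main j).1) (fun j hj => (main j).2.1)
          (fun j hj => (main j).2.2.1) (main i).2.2.2).1
  choose u v hv hu hcu using hstep
  have hcA : ∀ i, ∃ a : A, algebraMap A K a = c i := by
    intro i
    have h1 := (main i).2.2.2 0 (by omega)
    rw [hc0, inv_one, mul_one] at h1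
    exact h1
  choose cA hcA using hcA
  have hassoc : ∀ i, Associated (γ i) (u i) := by
    intro i
    obtain ⟨w, hw⟩ := hv i
    exact ⟨w, by rw [hw, hu i]⟩
  have hdd : ∀ z : K, D (D z) = 0 := by
    intro z
    obtain ⟨N, hN⟩ := hfin z
    exact delta_delta (τ := fun j => algebraMap A K (t j)) hcomm hsq hform hDτ' z N hN
      (fun j _ => (main j).2.2.1)
  refine ⟨u, cA, ?_⟩
  refine { dd := fun a => hdd _, c0 := ?_, cs := ?_, cne := ?_, dc := ?_, dt := ?_, ev := ?_,
           up := ?_, uu := ?_, enough := ?_ }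
  · apply IsFractionRing.injective A K
    rw [hcA, hc0, map_one]
  · intro i
    apply IsFractionRing.injective A K
    rw [hcA, hcu, map_mul, hcA]
  · intro i h0
    have := hcA i
    rw [h0, map_zero] at this
    exact (main i).1 this.symm
  · intro i
    rw [hcA]
    exact (main i).2.2.1
  · intro i
    rw [hcA, hDτ', mul_inv_cancel₀ (main i).1]
  · intro a
    obtain ⟨N, hN⟩ := hfin (algebraMap A K a)
    refine ⟨N, ?_⟩
    rw [hcA, hform _ N hN, Finset.mul_sum]
    apply IsA.sum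
    intro j hj
    rw [Finset.mem_range] at hj
    rw [hDτ']
    have h1 := (hPA j a).mul ((main N).2.2.2 j hj.le)
    convert h1 using 1
    ring
  · intro i
    rcases hup i with h | h
    · left
      rw [hu i, h, one_mul]
      exact hv i
    · right
      exact (hassoc i).prime h
  · intro i j hij hui hdvd
    have hgi : Prime (γ i) := (hassoc i).symm.prime hui
    rcases hup j with h | h
    · have huj : IsUnit (u j) := by rw [hu j, h, one_mul]; exact hv j
      exact hui.not_isUnit (isUnit_of_dvd_unit hdvd huj)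
    · have huj : Prime (u j) := (hassoc j).prime h
      have h1 : Associated (u i) (u j) := hui.irreducible.associated_of_dvd huj.irreducible hdvd
      exact huu i j hij hgi h (((hassoc i).trans h1).trans (hassoc j).symm)
  · intro Q hQ hQ0
    obtain ⟨g, hg, hgp⟩ := hprime Q hQ hQ0
    obtain ⟨i, hi, hig⟩ := henough g hgp
    refine ⟨i, (hassoc i).prime hi, ?_⟩
    have h1 : Associated g (u i) := hig.symm.trans (hassoc i)
    exact Q.mem_of_dvd h1.dvd hg

end Build

end Pool.Agent.KS6_47.Smn
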